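import Pool.Agent.V5helper89.PW.Fac

/-!
# P=W: definitions
-/

set_option autoImplicit false
set_option linter.dupNamespace false

open CategoryTheory CategoryTheory.Limits AlgebraicGeometry

namespace Pool.Agent.V5helper89.PW

noncomputable section

/-! ### Geometry -/

/-- Schemes over the complex numbers. -/
def Sch : Type 1 := Over (Spec (CommRingCat.of ℂ))

/-- The category of the schemes over `ℂ`. -/
instance : Category.{0} Sch := inferInstanceAs (Category.{0} (Over (Spec (CommRingCat.of ℂ))))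

/-- The underlying scheme. -/
def Sch.left (M : Sch) : Scheme.{0} := Comma.left M

/-- The structure morphism. -/
def Sch.str (M : Sch) : M.left ⟶ Spec (CommRingCat.of ℂ) := Comma.hom M

/-- The underlying morphism of schemes. -/
def mor {M N : Sch} (f : M ⟶ N) : M.left ⟶ N.left := CommaMorphism.left f

/-- `M` is separated and of finite type over `ℂ`. -/
structure FT (M : Sch) : Prop where
  separated : IsSeparated M.str
  finiteType : LocallyOfFiniteType M.str
  quasiCompact : QuasiCompact M.str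

/-- The homogeneous polynomials of degree `d` in `x_0, …, x_N`. -/
def homog (k : Type) [Field k] (N d : ℕ) : Submodule k (MvPolynomial (Fin (N + 1)) k) :=
  MvPolynomial.homogeneousSubmodule (Fin (N + 1)) k d

/-- The grading of the polynomial ring. -/
instance homogGrading (k : Type) [Field k] (N : ℕ) : GradedAlgebra (homog k N) :=
  MvPolynomial.gradedAlgebra

/-- The structure morphism of the projective space `ℙ^N = Proj k[x_0, …, x_N]`. -/
def projStr (k : Type) [Field k] (N : ℕ) :
    Proj (homog k N) ⟶ Spec (CommRingCat.of k) :=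
  Proj.toSpecZero (homog k N) ≫ Spec.map (CommRingCat.ofHom (algebraMap k (homog k N 0)))

/-- The projective space `ℙ^N` over `ℂ`. -/
def PP (N : ℕ) : Sch := Over.mk (projStr ℂ N)

/-- The morphism `f` is finite. -/
def IsFin {M N : Sch} (f : M ⟶ N) : Prop := IsFinite (mor f)

/-- The morphism `f` is proper. -/
def IsProp {M N : Sch} (f : M ⟶ N) : Prop := IsProper (mor f)

/-- `X` is a connected smooth projective variety over `ℂ`. -/
structure IsSmProj (X : Sch) : Prop where
  connected : ConnectedSpace X.left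
  smooth : Smooth X.str
  projective : ∃ (N : ℕ) (i : X ⟶ PP N), IsClosedImmersion (mor i)

/-- The product of `M` and `N` over `ℂ`. -/
def prd (M N : Sch) : Sch := Over.mk (pullback.fst M.str N.str ≫ M.str)

/-- The first projection. -/
def prd.fst (M N : Sch) : prd M N ⟶ M := Over.homMk (pullback.fst M.str N.str)

/-- The second projection. -/
def prd.snd (M N : Sch) : prd M N ⟶ N :=
  Over.homMk (pullback.snd M.str N.str) pullback.condition.symm

lemma mor_str {M N : Sch} (f : M ⟶ N) : mor f ≫ N.str = M.str := CommaMorphism.w f |>.trans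
  (Category.comp_id _)

/-- The product of two morphisms. -/
def prd.map {M N M' N' : Sch} (f : M ⟶ M') (g : N ⟶ N') : prd M N ⟶ prd M' N' :=
  Over.homMk (pullback.map M.str N.str M'.str N'.str (mor f) (mor g) (𝟙 _)
    (by rw [Category.comp_id]; exact (mor_str f).symm)
    (by rw [Category.comp_id]; exact (mor_str g).symm))
    (by
      change pullback.map _ _ _ _ _ _ _ _ _ ≫ pullback.fst M'.str N'.str ≫ M'.str =
        pullback.fst M.str N.str ≫ M.str
      rw [← Category.assoc, pullback.map, pullback.lift_fst, Category.assoc, mor_str f])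

/-- Finite étale morphisms. -/
abbrev finEt : MorphismProperty Scheme.{0} := @IsFinite ⊓ @Etale

/-- `f : Y ⟶ X` induces an isomorphism of the étale fundamental groups: the pull-back is an equivalence
from the category of finite étale coverings of `X` to the category of finite étale coverings of `Y`. -/
def EtIso {Y X : Sch} (f : Y ⟶ X) : Prop :=
  (MorphismProperty.Over.pullback finEt ⊤ (mor f)).IsEquivalence

/-- `p : Y ⟶ X` is a finite étale covering of degree `d` by a connected smooth projective variety. -/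
structure IsCovering {Y X : Sch} (p : Y ⟶ X) (d : ℕ) : Prop where
  smProj : IsSmProj Y
  finite : IsFinite (mor p)
  etale : Etale (mor p)
  degree : ∀ x : Spec (CommRingCat.of ℂ) ⟶ X.left, Nat.card ↥(pullback (mor p) x) = d

/-- The point `x` of `M` is in the image of `u`. -/
def InImage {N M : Sch} (u : N ⟶ M) (x : M.left) : Prop := x ∈ Set.range (mor u)

/-! ### Topology of complex varieties -/

/-- The points and the intersection cohomology of complex algebraic varieties. -/
structure Coh where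
  /-- the space `M(ℂ)` with the classical topology -/
  an : Sch ⥤ TopCat.{0}
  /-- intersection cohomology `IH^•`, a topological invariant (of the complex points of algebraic
  varieties), with rational coefficients -/
  IH : TopCat.{0} → Type
  /-- the addition -/
  grp : ∀ S, AddCommGroup (IH S)
  /-- the multiplication by rational numbers -/
  mod : ∀ S, Module ℚ (IH S)
  /-- the isomorphism induced by a homeomorphism -/
  map : ∀ {S T : TopCat.{0}}, (S ≅ T) → (IH S ≃ₗ[ℚ] IH T)

/-- `M(ℂ)`. -/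
def Coh.pts (T : Coh) (M : Sch) : TopCat.{0} := T.an.obj M

/-- `IH^•(M)`. -/
def Coh.H (T : Coh) (M : Sch) : Type := T.IH (T.pts M)

/-- The addition of `IH^•(M)`. -/
instance Coh.grpH (T : Coh) (M : Sch) : AddCommGroup (T.H M) := T.grp (T.pts M)

/-- The multiplication of `IH^•(M)` by rational numbers. -/
instance Coh.modH (T : Coh) (M : Sch) : Module ℚ (T.H M) := T.mod (T.pts M)

/-- The isomorphism `IH^•(M) ≅ IH^•(N)` induced by a homeomorphism `M(ℂ) ≅ N(ℂ)`. -/
def Coh.tr (T : Coh) {M N : Sch} (e : T.pts M ≅ T.pts N) : T.H M ≃ₗ[ℚ] T.H N := T.map e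

/-- The image of a subspace under the isomorphism induced by a homeomorphism. -/
def Coh.push (T : Coh) {M N : Sch} (e : T.pts M ≅ T.pts N) (U : Submodule ℚ (T.H M)) :
    Submodule ℚ (T.H N) := U.map (T.tr e).toLinearMap

/-- The continuous map `M(ℂ) → N(ℂ)` of a morphism. -/
def Coh.onPts (T : Coh) {M N : Sch} (u : M ⟶ N) : T.pts M ⟶ T.pts N := T.an.map u

/-- The morphism `u` is a homeomorphism for the classical topology. -/
def Coh.IsHomeo (T : Coh) {M N : Sch} (u : M ⟶ N) : Prop := IsIso (T.onPts u)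

/-- The homeomorphism given by a morphism. -/
def Coh.homeo (T : Coh) {M N : Sch} (u : M ⟶ N) (hu : T.IsHomeo u) :
    T.pts M ≅ T.pts N := @asIso _ _ _ _ (T.onPts u) hu

/-- The homeomorphism given by an isomorphism. -/
def Coh.iso (T : Coh) {M N : Sch} (e : M ≅ N) : T.pts M ≅ T.pts N := T.an.mapIso e

/-- The morphisms `u`, `u'` are compatible with the homeomorphisms `a`, `b`. -/
def Coh.Square (T : Coh) {N M N' M' : Sch} (u : N ⟶ M) (u' : N' ⟶ M') (a : T.pts N ≅ T.pts N')
    (b : T.pts M ≅ T.pts M') : Prop := T.onPts u ≫ b.hom = a.hom ≫ T.onPts u'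

/-- The data of the topology of complex algebraic varieties which enter P=W. -/
structure Topology extends Coh where
  /-- the weight filtration of the mixed Hodge structure on `IH^•(M)` -/
  W : ∀ M : Sch, ℤ → Submodule ℚ (toCoh.H M)
  /-- the perverse Leray filtration on `IH^•(M)` induced by the proper morphism `h : M ⟶ V`; the indices are
  normalized on every irreducible component `Z` of `M` such that the unit class in `IH^0(Z)` is in
  `P_0` and not in `P_(-1)` (shift by the relative dimension of `Z`). If `Ψ_* W_{2k} = P_k` for all `k`, then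
  `P_(-1) = 0`, and the filtration starts at zero. -/
  P : ∀ {M V : Sch}, (M ⟶ V) → ℤ → Submodule ℚ (toCoh.H M)
  /-- the pull-back for finite morphisms `u : N ⟶ M`: on `IH^•` of an irreducible component `Z` of `M` it is
  the pull-back to the components of `N` with the image `Z`, and zero to the other components -/
  pull : ∀ {N M : Sch}, (N ⟶ M) → (toCoh.H M →ₗ[ℚ] toCoh.H N)
  /-- the unit class in `IH^0(M)` -/
  one : ∀ M : Sch, toCoh.H M
  /-- the exterior product -/
  cross : ∀ M M' : Sch, toCoh.H M →ₗ[ℚ] toCoh.H M' →ₗ[ℚ] toCoh.H (prd M M')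
  /-- the product of two homeomorphisms -/
  times : ∀ {M M' N N' : Sch}, (toCoh.pts M ≅ toCoh.pts N) → (toCoh.pts M' ≅ toCoh.pts N') →
    (toCoh.pts (prd M M') ≅ toCoh.pts (prd N N'))

/-- The exterior product of two classes. -/
def Topology.ext (T : Topology) {M M' : Sch} (x : T.H M) (y : T.H M') : T.H (prd M M') :=
  T.cross M M' x y

/-- The tensor product of two filtrations. -/
def Topology.tens (T : Topology) {M M' : Sch} (F : ℤ → Submodule ℚ (T.H M))
    (G : ℤ → Submodule ℚ (T.H M')) (k : ℤ) : Submodule ℚ (T.H (prd M M')) :=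
  ⨆ i : ℤ, Submodule.map₂ (T.cross M M') (F i) (G (k - i))

/-- The exterior product `IH^•(M) ⊗ IH^•(M') → IH^•(M × M')` is injective. -/
def Topology.Inj (T : Topology) (M M' : Sch) : Prop :=
  Function.Injective (TensorProduct.lift (T.cross M M'))

/-- Topological invariance, and finite morphisms.

* `map_trans`: functoriality for homeomorphisms;
* `weights`: isomorphic varieties have isomorphic mixed Hodge structures;
* `finite`: a morphism `u` which is a homeomorphism for the classical topology is finite (it is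
  proper, as its analytification is proper, and quasi-finite);
* `perverse_homeo`: for a finite morphism `u : M ⟶ M'` which is a homeomorphism, the perverse filtration of
  `h : M' ⟶ V` corresponds to the one of `u ≫ h`;
* `perverse_finite`: the perverse filtration of `h : M ⟶ V` is also the one of `h ≫ g`, `g : V ⟶ V'` finite
  (the push-forward by a finite morphism is exact for the perverse t-structures). -/
structure IsInvariant (T : Topology) : Prop where
  map_trans : ∀ {A B C : Sch} (e : T.pts A ≅ T.pts B) (e' : T.pts B ≅ T.pts C) (x : T.H A),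
    T.tr (e ≪≫ e') x = T.tr e' (T.tr e x)
  weights : ∀ {M M' : Sch} (e : M ≅ M'), FT M → ∀ k : ℤ, T.push (T.iso e) (T.W M k) = T.W M' k
  finite : ∀ {M M' : Sch} (u : M ⟶ M'), FT M → FT M' → T.IsHomeo u → IsFin u
  perverse_homeo : ∀ {M M' V : Sch} (u : M ⟶ M') (h : M' ⟶ V), FT M → FT M' → FT V →
    IsFin u → IsProp h → ∀ (hu : T.IsHomeo u) (k : ℤ),
      T.push (T.homeo u hu) (T.P (u ≫ h) k) = T.P h k
  perverse_finite : ∀ {M V V' : Sch} (h : M ⟶ V) (g : V ⟶ V'), FT M → FT V → FT V' →
    IsProp h → IsFin g → ∀ k : ℤ, T.P (h ≫ g) k = T.P h k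

/-- The filtrations are increasing, the weights are not negative, and `W_0` and `P_0` contain the unit
class, which is a topological invariant. -/
structure HasUnits (T : Topology) : Prop where
  weights_mono : ∀ M : Sch, FT M → ∀ i j : ℤ, i ≤ j → T.W M i ≤ T.W M j
  perverse_mono : ∀ {M V : Sch} (h : M ⟶ V), FT M → FT V → IsProp h → ∀ i j : ℤ, i ≤ j →
    T.P h i ≤ T.P h j
  weights_neg : ∀ M : Sch, FT M → ∀ i : ℤ, i < 0 → T.W M i = ⊥
  one_weights : ∀ M : Sch, FT M → T.one M ∈ T.W M 0
  one_perverse : ∀ {M V : Sch} (h : M ⟶ V), FT M → FT V → IsProp h → T.one M ∈ T.P h 0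
  one_ne : ∀ M : Sch, FT M → Nonempty M.left → T.one M ≠ 0
  one_nat : ∀ {M N : Sch} (a : T.pts M ≅ T.pts N), FT M → FT N → T.tr a (T.one M) = T.one N

/-- The finite morphisms `u_i : N_i ⟶ M` cover `M`. -/
structure IsCover {ι : Type} {M : Sch} {N : ι → Sch} (u : ∀ i, N i ⟶ M) : Prop where
  ft : FT M
  ft' : ∀ i, FT (N i)
  finite : ∀ i, IsFin (u i)
  covers : ∀ x : M.left, ∃ i, InImage (u i) x

/-- Traces: for finite morphisms `u_i : N_i ⟶ M` whose images cover `M` the intersection
complex of `M` is a direct summand of the sum of the push-forwards of those of the `N_i`;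
hence a class has weight `≤ k` (perversity `≤ k` for `h`) if and only if its pull-backs have (for `u_i ≫ h`);
`pull_nat`: the pull-back is compatible with homeomorphisms. -/
structure HasTraces (T : Topology) : Prop where
  pull_weights : ∀ {ι : Type} [Finite ι] {M : Sch} {N : ι → Sch} (u : ∀ i, N i ⟶ M), IsCover u →
    ∀ (k : ℤ) (x : T.H M), x ∈ T.W M k ↔ ∀ i, T.pull (u i) x ∈ T.W (N i) k
  pull_perverse : ∀ {ι : Type} [Finite ι] {M V : Sch} {N : ι → Sch} (u : ∀ i, N i ⟶ M)
    (h : M ⟶ V), IsCover u → FT V → IsProp h →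
      ∀ (k : ℤ) (x : T.H M), x ∈ T.P h k ↔ ∀ i, T.pull (u i) x ∈ T.P (u i ≫ h) k
  pull_nat : ∀ {N M N' M' : Sch} (u : N ⟶ M) (u' : N' ⟶ M'), FT N → FT M → FT N' → FT M' →
    IsFin u → IsFin u' → ∀ (a : T.pts N ≅ T.pts N') (b : T.pts M ≅ T.pts M'),
      T.Square u u' a b → ∀ x : T.H M, T.tr a (T.pull u x) = T.pull u' (T.tr b x)

/-- The Künneth formula.

* `times_fst`, `times_snd`: the product of homeomorphisms; `cross_nat`: compatibility of the exterior product;
* `cross_inj`, `cross_weights`, `cross_perverse`: the filtrations of a product are the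
  tensor products of the filtrations of the factors. -/
structure HasKuenneth (T : Topology) : Prop where
  times_fst : ∀ {M M' N N' : Sch} (a : T.pts M ≅ T.pts N) (a' : T.pts M' ≅ T.pts N'),
    T.Square (prd.fst M M') (prd.fst N N') (T.times a a') a
  times_snd : ∀ {M M' N N' : Sch} (a : T.pts M ≅ T.pts N) (a' : T.pts M' ≅ T.pts N'),
    T.Square (prd.snd M M') (prd.snd N N') (T.times a a') a'
  cross_nat : ∀ {M M' N N' : Sch}, FT M → FT M' → FT N → FT N' →
    ∀ (a : T.pts M ≅ T.pts N) (a' : T.pts M' ≅ T.pts N') (x : T.H M) (y : T.H M'),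
    T.tr (T.times a a') (T.ext x y) = T.ext (T.tr a x) (T.tr a' y)
  cross_inj : ∀ M M' : Sch, FT M → FT M' → T.Inj M M'
  cross_weights : ∀ M M' : Sch, FT M → FT M' → ∀ k : ℤ,
    T.W (prd M M') k = T.tens (T.W M) (T.W M') k
  cross_perverse : ∀ {M M' V V' : Sch} (h : M ⟶ V) (h' : M' ⟶ V'), FT M → FT M' → FT V → FT V' →
    IsProp h → IsProp h' → ∀ k : ℤ, T.P (prd.map h h') k = T.tens (T.P h) (T.P h') k

/-- The properties of `IH^•`, of the weight filtration and of the perverse filtrations which are used. -/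
structure IsTopology (T : Topology) : Prop where
  inv : IsInvariant T
  units : HasUnits T
  traces : HasTraces T
  kuenneth : HasKuenneth T

/-! ### Moduli spaces -/

/-- The four data of non-abelian Hodge theory: a Betti space, a Dolbeault space, the Hitchin morphism and
the homeomorphism of the two spaces. -/
structure Quad (T : Topology) where
  /-- the Betti moduli space `M_B` -/
  B : Sch
  /-- the Dolbeault moduli space `M_D` -/
  D : Sch
  /-- the base of the Hitchin morphism -/
  V : Sch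
  /-- the Hitchin morphism -/
  hit : D ⟶ V
  /-- the homeomorphism of the non-abelian Hodge theorem -/
  Psi : T.pts B ≅ T.pts D

variable {T : Topology}

/-- The moduli spaces are nonempty, separated and of finite type, the base is affine, the Hitchin morphism
is proper. -/
structure Quad.Good (𝓜 : Quad T) : Prop where
  nonB : Nonempty 𝓜.B.left
  nonD : Nonempty 𝓜.D.left
  ftB : FT 𝓜.B
  ftD : FT 𝓜.D
  ftV : FT 𝓜.V
  affine : IsAffine 𝓜.V.left
  proper : IsProp 𝓜.hit

/-- **Q1** in the degree `k`: `W_{2k+1} = W_{2k}`. -/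
def Quad.Q1 (𝓜 : Quad T) (k : ℤ) : Prop := T.W 𝓜.B (2 * k + 1) = T.W 𝓜.B (2 * k)

/-- **Q2** in the degree `k`: `Ψ_* W_{2k} = P_k`. -/
def Quad.Q2 (𝓜 : Quad T) (k : ℤ) : Prop :=
  T.push 𝓜.Psi (T.W 𝓜.B (2 * k)) = T.P 𝓜.hit k

/-- **P=W**: Q1 and Q2 in all degrees. -/
def Quad.PW (𝓜 : Quad T) : Prop := ∀ k, 𝓜.Q1 k ∧ 𝓜.Q2 k

/-- **Q1** in all degrees. -/
def Quad.Even (𝓜 : Quad T) : Prop := ∀ k, 𝓜.Q1 k

/-- The product. -/
def Quad.prod (𝓜 𝓝 : Quad T) : Quad T where
  B := prd 𝓜.B 𝓝.B
  D := prd 𝓜.D 𝓝.D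
  V := prd 𝓜.V 𝓝.V
  hit := prd.map 𝓜.hit 𝓝.hit
  Psi := T.times 𝓜.Psi 𝓝.Psi

/-- Morphisms. -/
structure QHom (𝓝 𝓜 : Quad T) where
  b : 𝓝.B ⟶ 𝓜.B
  d : 𝓝.D ⟶ 𝓜.D
  v : 𝓝.V ⟶ 𝓜.V
  hit : d ≫ 𝓜.hit = 𝓝.hit ≫ v
  Psi : T.Square b d 𝓝.Psi 𝓜.Psi

/-- Both morphisms of moduli spaces are finite. -/
structure QHom.Fin {𝓝 𝓜 : Quad T} (u : QHom 𝓝 𝓜) : Prop where
  b : IsFin u.b
  d : IsFin u.d

/-- The images of the morphisms `u_i : 𝓝_i → 𝓜` cover `𝓜`. -/
def Covers {ι : Type} {𝓜 : Quad T} {𝓝 : ι → Quad T} (u : ∀ i, QHom (𝓝 i) 𝓜) : Prop :=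
  (∀ x : 𝓜.B.left, ∃ i, InImage (u i).b x) ∧
  ∀ x : 𝓜.D.left, ∃ i, InImage (u i).d x

/-- A property of quadruples with the following permanence properties.

* `inv`: it is invariant under morphisms `𝓝 → 𝓜` which are isomorphisms of the Betti spaces (no
  condition on the Dolbeault spaces and the bases);
* `descent`: if finitely many finite morphisms `𝓝_i → 𝓜` cover `𝓜`, and if all `𝓝_i` have the property,
  then so does `𝓜`;
* `prod`: a product has the property if and only if both factors have. -/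
structure Calculus (R : Quad T → Prop) : Prop where
  inv : ∀ {𝓝 𝓜 : Quad T}, 𝓝.Good → 𝓜.Good → ∀ u : QHom 𝓝 𝓜, IsIso u.b → (R 𝓝 ↔ R 𝓜)
  descent : ∀ {ι : Type} [Finite ι] {𝓜 : Quad T} {𝓝 : ι → Quad T}, 𝓜.Good → (∀ i, (𝓝 i).Good) →
    ∀ u : ∀ i, QHom (𝓝 i) 𝓜, (∀ i, (u i).Fin) → Covers u → (∀ i, R (𝓝 i)) → R 𝓜
  prod : ∀ {𝓜 𝓝 : Quad T}, 𝓜.Good → 𝓝.Good → (R (𝓜.prod 𝓝) ↔ R 𝓜 ∧ R 𝓝)

/-- The moduli spaces for one reductive group `G` and all `X`, with the pull-backs along the morphisms
`f : Y ⟶ X` (Simpson). -/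
structure Moduli (T : Topology) where
  M : Sch → Quad T
  pb : ∀ {Y X : Sch}, (Y ⟶ X) → QHom (M X) (M Y)

/-- The properties which are used (`X`, `Y` connected smooth projective varieties): `good`;
`betti`: if `f : Y ⟶ X` induces an isomorphism of étale fundamental groups, then the pull-back
`M_B(X, G) ⟶ M_B(Y, G)` is an isomorphism (Grothendieck: a homomorphism of finitely presented groups
with an isomorphism of the profinite completions induces equivalences of the categories of linear
representations over all commutative rings). -/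
structure IsModuli (𝓖 : Moduli T) : Prop where
  good : ∀ X, IsSmProj X → (𝓖.M X).Good
  betti : ∀ {Y X : Sch} (f : Y ⟶ X), IsSmProj Y → IsSmProj X → EtIso f → IsIso (𝓖.pb f).b

/-- Q1 and Q2 in the degree `k` are invariant under morphisms `f : Y ⟶ X` which induce an isomorphism of
étale fundamental groups. -/
def Moduli.Invariant (𝓖 : Moduli T) (k : ℤ) : Prop :=
  ∀ (Y X : Sch) (f : Y ⟶ X), IsSmProj Y → IsSmProj X → EtIso f →
    ((𝓖.M X).Q1 k ↔ (𝓖.M Y).Q1 k) ∧ ((𝓖.M X).Q2 k ↔ (𝓖.M Y).Q2 k)

/-- For each `X` there is a morphism `Y ⟶ X` which induces an isomorphism of étale fundamental groups,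
with `Y` in `S`. -/
def Dense (S : Sch → Prop) : Prop :=
  ∀ X, IsSmProj X → ∃ (Y : Sch) (f : Y ⟶ X), IsSmProj Y ∧ S Y ∧ EtIso f

/-- Q1, respectively Q2, in the degree `k` holds for all `X` if and only if it holds for all `X` in `S`. -/
def Moduli.ReducesTo (𝓖 : Moduli T) (k : ℤ) (S : Sch → Prop) : Prop :=
  ((∀ X, IsSmProj X → (𝓖.M X).Q1 k) ↔ ∀ X, IsSmProj X → S X → (𝓖.M X).Q1 k) ∧
  ((∀ X, IsSmProj X → (𝓖.M X).Q2 k) ↔ ∀ X, IsSmProj X → S X → (𝓖.M X).Q2 k)

/-- The moduli spaces for the groups `GL_n`, with sums, induction and exterior tensor products. -/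
structure Linear (T : Topology) where
  /-- the group `GL_n` -/
  gl : ℕ → Moduli T
  /-- `(ρ, τ) ↦ Ind ρ ⊕ τ`, for a finite étale covering `p : Y ⟶ X` of degree `d` (for example the
  identity of `X`), `ρ` on `Y` and `τ` on `X` -/
  ind : ∀ {Y X : Sch} (_ : Y ⟶ X) {d a c n : ℕ}, d * a + c = n →
    QHom (((gl a).M Y).prod ((gl c).M X)) ((gl n).M X)
  /-- `(ρ, σ, τ) ↦ (ρ ⊠ σ) ⊕ τ`, for `ρ` on `X`, `σ` on `Y` and `τ` on `X × Y` -/
  box : ∀ (X Y : Sch) {a b c n : ℕ}, a * b + c = n →
    QHom ((((gl a).M X).prod ((gl b).M Y)).prod ((gl c).M (prd X Y))) ((gl n).M (prd X Y))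

/-- The semisimple representations of `π_1(X × Y)` of dimension `n` are of the form `(ρ ⊠ σ) ⊕ τ`, `ρ`, `σ`
of positive dimension. -/
def Linear.BoxOnto (𝓛 : Linear T) (X Y : Sch) (n : ℕ) : Prop :=
  (∀ x : ((𝓛.gl n).M (prd X Y)).B.left, ∃ (a b c : ℕ) (h : a * b + c = n), 0 < a ∧ 0 < b ∧
    InImage (𝓛.box X Y h).b x) ∧
  ∀ x : ((𝓛.gl n).M (prd X Y)).D.left, ∃ (a b c : ℕ) (h : a * b + c = n), 0 < a ∧ 0 < b ∧
    InImage (𝓛.box X Y h).d x

/-- The properties which are used (`X`, `Y` connected smooth projective varieties):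

* `moduli`: see `IsModuli`; `zero`: `M(X, GL_0)` is a point, for which P=W is trivial;
* `ind_fin`, `box_fin`: the morphisms are finite, `box` for `a, b > 0` (Simpson);
* `box_covers`: a semisimple representation of `π_1(X) × π_1(Y)` of dimension `n > 0` is of the form
  `(ρ ⊠ σ) ⊕ τ`, `ρ`, `σ` of positive dimension. -/
structure IsLinear (𝓛 : Linear T) : Prop where
  moduli : ∀ n, IsModuli (𝓛.gl n)
  zero : ∀ X, IsSmProj X → ((𝓛.gl 0).M X).PW
  ind_fin : ∀ {Y X : Sch} (p : Y ⟶ X) {d a c n : ℕ} (h : d * a + c = n), IsSmProj X →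
    IsCovering p d → (𝓛.ind p h).Fin
  box_fin : ∀ X Y, IsSmProj X → IsSmProj Y → IsSmProj (prd X Y) → ∀ {a b c n : ℕ}
    (h : a * b + c = n), 0 < a → 0 < b → (𝓛.box X Y h).Fin
  box_covers : ∀ X Y, IsSmProj X → IsSmProj Y → IsSmProj (prd X Y) → ∀ n : ℕ, 0 < n →
    𝓛.BoxOnto X Y n

/-- The property `R` (Q1, or P=W) holds for `X` and the groups `GL_m`, `m ≤ n`. -/
def Linear.UpTo (𝓛 : Linear T) (R : Quad T → Prop) (n : ℕ) (X : Sch) : Prop :=
  ∀ m ≤ n, R ((𝓛.gl m).M X)

/-- Every semisimple representation of `π_1(X)` of dimension `m`, `0 < m ≤ n`, is of the form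
`Ind ρ ⊕ τ`, for one of the coverings `p_j : Y_j ⟶ X` of degree `d_j` and a representation `ρ` of dimension
`a_j` of `π_1(Y_j)`. -/
def Linear.Induced (𝓛 : Linear T) (n : ℕ) (X : Sch) {κ : Type} {Y : κ → Sch}
    (p : ∀ j, Y j ⟶ X) (d a : κ → ℕ) : Prop := ∀ m ≤ n, 0 < m →
  (∀ x : ((𝓛.gl m).M X).B.left, ∃ (j : κ) (c : ℕ) (h : d j * a j + c = m),
    InImage (𝓛.ind (p j) h).b x) ∧
  ∀ x : ((𝓛.gl m).M X).D.left, ∃ (j : κ) (c : ℕ) (h : d j * a j + c = m),
    InImage (𝓛.ind (p j) h).d x

/-- The smallest class of connected smooth projective varieties which contains `𝒜` and is closed under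
products and, in both directions, under morphisms `Y ⟶ X` which induce an isomorphism of étale
fundamental groups. -/
inductive Gen (𝒜 : Sch → Prop) : Sch → Prop
  | base {X : Sch} (hX : IsSmProj X) (h : 𝒜 X) : Gen 𝒜 X
  | product {X Y : Sch} (hp : IsSmProj (prd X Y)) (hX : Gen 𝒜 X) (hY : Gen 𝒜 Y) : Gen 𝒜 (prd X Y)
  | up {Y X : Sch} (f : Y ⟶ X) (hX : IsSmProj X) (hf : EtIso f) (hY : Gen 𝒜 Y) : Gen 𝒜 X
  | down {Y X : Sch} (f : Y ⟶ X) (hY : IsSmProj Y) (hf : EtIso f) (hX : Gen 𝒜 X) : Gen 𝒜 Y

end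

end Pool.Agent.V5helper89.PW
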