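import Mathlib

/-!
# Proper morphisms which factor in two ways
-/

set_option autoImplicit false

open CategoryTheory AlgebraicGeometry

universe u

namespace Pool.Agent.V5helper89.PW

/-- Let `u ≫ h' = h ≫ φ` be proper, `h` proper, `φ` a separated morphism of finite type between affine
schemes. Then `h` is the composition of a proper morphism `g` and a closed immersion `i` such that `i ≫ φ` is
finite. -/
theorem exists_factor {M V V' : Scheme.{u}} (h : M ⟶ V) (φ : V ⟶ V') [IsProper h] [IsAffine V]
    [IsAffine V'] [LocallyOfFiniteType φ] (hp : IsProper (h ≫ φ)) :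
    ∃ (Z : Scheme.{u}) (g : M ⟶ Z) (i : Z ⟶ V), g ≫ i = h ∧ IsProper g ∧ IsClosedImmersion i ∧
      IsFinite (i ≫ φ) := by
  refine ⟨h.image, h.toImage, h.imageι, h.toImage_imageι, ?_, inferInstance, ?_⟩
  · have h1 : IsProper (h.toImage ≫ h.imageι) := by rw [h.toImage_imageι]; infer_instance
    exact IsProper.of_comp h.toImage h.imageι
  · have h1 : IsProper (h.toImage ≫ h.imageι) := by rw [h.toImage_imageι]; infer_instance
    have h2 : IsProper h.toImage := IsProper.of_comp h.toImage h.imageι
    have h3 : Surjective h.toImage := by
      have hd : IsDominant h.toImage := inferInstance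
      refine ⟨?_⟩
      have h4 : IsClosed (Set.range h.toImage) := h.toImage.isClosedMap.isClosed_range
      rw [← Set.range_eq_univ, ← h4.closure_eq]
      exact h.toImage.denseRange.closure_eq
    have h5 : IsProper (h.toImage ≫ h.imageι ≫ φ) := by
      rw [← Category.assoc, h.toImage_imageι]; exact hp
    have h6 : UniversallyClosed (h.imageι ≫ φ) := .of_comp_surjective h.toImage _
    have h7 : IsAffine h.image := isAffine_of_isAffineHom h.imageι
    rw [IsFinite.iff_isProper_and_isAffineHom]
    exact ⟨{}, inferInstance⟩

end Pool.Agent.V5helper89.PW
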