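import Pool.Agent.V5helper89.PW.Defs

/-!
# P=W: invariance under isomorphisms of étale fundamental groups, descent, products
-/

set_option autoImplicit false

open CategoryTheory CategoryTheory.Limits AlgebraicGeometry

namespace Pool.Agent.V5helper89.PW

variable {T : Topology}

lemma ft_closed {Z V : Sch} (i : Z ⟶ V) (hi : IsClosedImmersion (mor i)) (hV : FT V) : FT Z := by
  have h1 := hV.separated
  have h2 := hV.finiteType
  have h3 := hV.quasiCompact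
  have h4 : Z.str = mor i ≫ V.str := (mor_str i).symm
  constructor
  · rw [h4]; infer_instance
  · rw [h4]; infer_instance
  · rw [h4]; infer_instance

/-- Two factorizations of a proper morphism. -/
theorem perverse_comp (hT : IsTopology T) {M V V' : Sch} (h : M ⟶ V) (φ : V ⟶ V') (hM : FT M)
    (hV : FT V) (hV' : FT V') (ha : IsAffine V.left) (ha' : IsAffine V'.left)
    (hh : IsProp h) (hp : IsProp (h ≫ φ)) (k : ℤ) : T.P (h ≫ φ) k = T.P h k := by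
  have h1 : LocallyOfFiniteType (mor φ) := by
    have h2 := hV.finiteType
    have h3 : LocallyOfFiniteType (mor φ ≫ V'.str) := by rw [mor_str φ]; exact h2
    exact locallyOfFiniteType_of_comp (mor φ) V'.str
  have hp' : IsProper (mor h ≫ mor φ) := hp
  have hh' : IsProper (mor h) := hh
  obtain ⟨Z, g, i, hgi, hg, hi, hf⟩ := exists_factor (mor h) (mor φ) hp'
  let Z' : Sch := Over.mk (i ≫ V.str)
  let i' : Z' ⟶ V := Over.homMk i
  let g' : M ⟶ Z' := Over.homMk g (by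
    change g ≫ i ≫ V.str = M.str
    rw [← Category.assoc, hgi]
    exact mor_str h)
  have hgi' : g' ≫ i' = h := by
    refine Over.OverMorphism.ext ?_
    exact hgi
  have hi' : IsClosedImmersion (mor i') := hi
  have hZ : FT Z' := ft_closed i' hi' hV
  have h4 : T.P (g' ≫ i' ≫ φ) k = T.P g' k :=
    hT.inv.perverse_finite g' (i' ≫ φ) hM hZ hV' hg hf k
  have h5 : T.P (g' ≫ i') k = T.P g' k :=
    hT.inv.perverse_finite g' i' hM hZ hV hg (by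
      change IsFinite (mor i')
      infer_instance) k
  rw [← Category.assoc, hgi'] at h4
  rw [hgi'] at h5
  rw [h4, h5]

/-- A morphism of quadruples with finite Dolbeault part: the two Hitchin morphisms give the same
perverse filtration. -/
lemma perverse_hom (hT : IsTopology T) {𝓝 𝓜 : Quad T} (h𝓝 : 𝓝.Good) (h𝓜 : 𝓜.Good)
    (u : QHom 𝓝 𝓜) (hu : IsFin u.d) (k : ℤ) : T.P (u.d ≫ 𝓜.hit) k = T.P 𝓝.hit k := by
  have hprop : IsProp (𝓝.hit ≫ u.v) := by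
    rw [← u.hit]
    have h1 : IsProper (mor 𝓜.hit) := h𝓜.proper
    have h2 : IsFinite (mor u.d) := hu
    change IsProper (mor u.d ≫ mor 𝓜.hit)
    infer_instance
  rw [u.hit]
  exact perverse_comp hT 𝓝.hit u.v h𝓝.ftD h𝓝.ftV h𝓜.ftV h𝓝.affine h𝓜.affine h𝓝.proper hprop k

/-- **Invariance**, in every degree. -/
theorem inv (hT : IsTopology T) {𝓝 𝓜 : Quad T} (h𝓝 : 𝓝.Good) (h𝓜 : 𝓜.Good) (u : QHom 𝓝 𝓜)
    (hf : IsIso u.b) (k : ℤ) : (𝓝.Q1 k ↔ 𝓜.Q1 k) ∧ (𝓝.Q2 k ↔ 𝓜.Q2 k) := by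
  let b : T.pts 𝓝.B ≅ T.pts 𝓜.B := T.iso (asIso u.b)
  have hnat : T.onPts u.b ≫ 𝓜.Psi.hom = 𝓝.Psi.hom ≫ T.onPts u.d := u.Psi
  have hb : IsIso (T.onPts u.b) := inferInstanceAs (IsIso (T.an.map u.b))
  have hd : T.IsHomeo u.d := by
    have h1 : T.onPts u.d = 𝓝.Psi.inv ≫ T.onPts u.b ≫ 𝓜.Psi.hom := by
      rw [hnat, Iso.inv_hom_id_assoc]
    change IsIso (T.onPts u.d)
    rw [h1]
    infer_instance
  let d : T.pts 𝓝.D ≅ T.pts 𝓜.D := T.homeo u.d hd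
  have hbd : b ≪≫ 𝓜.Psi = 𝓝.Psi ≪≫ d := by
    ext1
    exact hnat
  have hW : ∀ k : ℤ, T.push b (T.W 𝓝.B k) = T.W 𝓜.B k := fun k =>
    hT.inv.weights (asIso u.b) h𝓝.ftB k
  have hfin : IsFin u.d := hT.inv.finite _ h𝓝.ftD h𝓜.ftD hd
  have hP : T.push d (T.P 𝓝.hit k) = T.P 𝓜.hit k := by
    rw [← perverse_hom hT h𝓝 h𝓜 u hfin k]
    exact hT.inv.perverse_homeo u.d 𝓜.hit h𝓝.ftD h𝓜.ftD h𝓜.ftV hfin h𝓜.proper hd k
  have inj : ∀ {A B : Sch} (e : T.pts A ≅ T.pts B) (U U' : Submodule ℚ (T.H A)),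
      T.push e U = T.push e U' ↔ U = U' := fun e U U' =>
    (Submodule.map_injective_of_injective (T.tr e).injective).eq_iff
  have hcomp : ∀ U : Submodule ℚ (T.H 𝓝.B),
      T.push d (T.push 𝓝.Psi U) = T.push 𝓜.Psi (T.push b U) := by
    intro U
    change (U.map (T.tr 𝓝.Psi).toLinearMap).map (T.tr d).toLinearMap =
      (U.map (T.tr b).toLinearMap).map (T.tr 𝓜.Psi).toLinearMap
    rw [← Submodule.map_comp, ← Submodule.map_comp]
    congr 1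
    refine LinearMap.ext fun x => ?_
    change T.tr d (T.tr 𝓝.Psi x) = T.tr 𝓜.Psi (T.tr b x)
    rw [← hT.inv.map_trans, ← hT.inv.map_trans, hbd]
  constructor
  · unfold Quad.Q1
    rw [← inj b, hW, hW]
  · unfold Quad.Q2
    rw [← inj d, hcomp, hW, hP]

lemma q2_iff {𝓜 : Quad T} {k : ℤ} : 𝓜.Q2 k ↔
    ∀ x, x ∈ T.W 𝓜.B (2 * k) ↔ T.tr 𝓜.Psi x ∈ T.P 𝓜.hit k := by
  unfold Quad.Q2
  constructor
  · intro h x
    rw [← h]
    constructor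
    · intro hx
      exact ⟨x, hx, rfl⟩
    · rintro ⟨y, hy, hyx⟩
      have h1 : y = x := (T.tr 𝓜.Psi).injective hyx
      rwa [← h1]
  · intro h
    refine Submodule.ext fun y => ?_
    constructor
    · rintro ⟨x, hx, rfl⟩
      exact (h x).mp hx
    · intro hy
      refine ⟨(T.tr 𝓜.Psi).symm y, (h _).mpr ?_, (T.tr 𝓜.Psi).apply_symm_apply y⟩
      rwa [(T.tr 𝓜.Psi).apply_symm_apply]

/-- **Descent**, in every degree. -/
theorem descent (hT : IsTopology T) {ι : Type} [Finite ι] {𝓜 : Quad T} {𝓝 : ι → Quad T}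
    (h𝓜 : 𝓜.Good) (h𝓝 : ∀ i, (𝓝 i).Good) (u : ∀ i, QHom (𝓝 i) 𝓜) (hu : ∀ i, (u i).Fin)
    (hc : Covers u) (k : ℤ) : ((∀ i, (𝓝 i).Q1 k) → 𝓜.Q1 k) ∧ ((∀ i, (𝓝 i).Q2 k) → 𝓜.Q2 k) := by
  have hW : ∀ (k : ℤ) (x : T.H 𝓜.B), x ∈ T.W 𝓜.B k ↔ ∀ i, T.pull (u i).b x ∈ T.W (𝓝 i).B k :=
    hT.traces.pull_weights (fun i => (u i).b)
      ⟨h𝓜.ftB, fun i => (h𝓝 i).ftB, fun i => (hu i).b, hc.1⟩
  constructor
  · intro h
    unfold Quad.Q1
    refine Submodule.ext fun x => ?_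
    rw [hW, hW]
    refine forall_congr' fun i => ?_
    rw [h i]
  · intro h
    rw [q2_iff]
    intro x
    rw [hW, hT.traces.pull_perverse (fun i => (u i).d) 𝓜.hit
      ⟨h𝓜.ftD, fun i => (h𝓝 i).ftD, fun i => (hu i).d, hc.2⟩ h𝓜.ftV h𝓜.proper]
    refine forall_congr' fun i => ?_
    rw [perverse_hom hT (h𝓝 i) h𝓜 (u i) (hu i).d k, (q2_iff.mp (h i)) _,
      hT.traces.pull_nat (u i).b (u i).d (h𝓝 i).ftB h𝓜.ftB (h𝓝 i).ftD h𝓜.ftD (hu i).b (hu i).d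
        (𝓝 i).Psi 𝓜.Psi (u i).Psi]

/-! ### Products -/

lemma ft_prd {M N : Sch} (hM : FT M) (hN : FT N) : FT (prd M N) := by
  have h1 := hM.separated
  have h2 := hM.finiteType
  have h3 := hM.quasiCompact
  have h4 := hN.separated
  have h5 := hN.finiteType
  have h6 := hN.quasiCompact
  refine ⟨?_, ?_, ?_⟩
  · change IsSeparated (pullback.fst M.str N.str ≫ M.str); infer_instance
  · change LocallyOfFiniteType (pullback.fst M.str N.str ≫ M.str); infer_instance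
  · change QuasiCompact (pullback.fst M.str N.str ≫ M.str); infer_instance

lemma nonempty_prd {M N : Sch} (hM : Nonempty M.left) (hN : Nonempty N.left) :
    Nonempty (prd M N).left := by
  have h1 : Subsingleton (Spec (CommRingCat.of ℂ)) :=
    inferInstanceAs (Subsingleton (PrimeSpectrum ℂ))
  change Nonempty ↑(pullback M.str N.str)
  infer_instance

lemma prd_good {𝓜 𝓝 : Quad T} (h𝓜 : 𝓜.Good) (h𝓝 : 𝓝.Good) : (𝓜.prod 𝓝).Good where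
  nonB := nonempty_prd h𝓜.nonB h𝓝.nonB
  nonD := nonempty_prd h𝓜.nonD h𝓝.nonD
  ftB := ft_prd h𝓜.ftB h𝓝.ftB
  ftD := ft_prd h𝓜.ftD h𝓝.ftD
  ftV := ft_prd h𝓜.ftV h𝓝.ftV
  affine := by
    have h1 := h𝓜.affine
    have h2 := h𝓝.affine
    change IsAffine (pullback 𝓜.V.str 𝓝.V.str)
    infer_instance
  proper := by
    have h1 : IsProper (mor 𝓜.hit) := h𝓜.proper
    have h2 : IsProper (mor 𝓝.hit) := h𝓝.proper
    exact MorphismProperty.pullbackMap (P := @IsProper) h1 h2 (mor_str 𝓜.hit).symm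
      (mor_str 𝓝.hit).symm

/-- **Products**: the weights. -/
lemma prd_even (hT : IsTopology T) {𝓜 𝓝 : Quad T} (h𝓜 : 𝓜.Good) (h𝓝 : 𝓝.Good) (hM : 𝓜.Even)
    (hN : 𝓝.Even) : (𝓜.prod 𝓝).Even ∧ ∀ k : ℤ, T.W (prd 𝓜.B 𝓝.B) (2 * k) =
      ⨆ j : ℤ, Submodule.map₂ (T.cross 𝓜.B 𝓝.B) (T.W 𝓜.B (2 * j)) (T.W 𝓝.B (2 * (k - j))) := by
  have hmono' := hT.units.weights_mono _ h𝓝.ftB
  have hc : ∀ k : ℤ, T.W (prd 𝓜.B 𝓝.B) k = ⨆ i : ℤ, Submodule.map₂ (T.cross 𝓜.B 𝓝.B)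
      (T.W 𝓜.B i) (T.W 𝓝.B (k - i)) := hT.kuenneth.cross_weights 𝓜.B 𝓝.B h𝓜.ftB h𝓝.ftB
  have heven : ∀ k : ℤ, T.W (prd 𝓜.B 𝓝.B) (2 * k) = ⨆ j : ℤ, Submodule.map₂ (T.cross 𝓜.B 𝓝.B)
      (T.W 𝓜.B (2 * j)) (T.W 𝓝.B (2 * (k - j))) := by
    intro k
    rw [hc]
    apply le_antisymm
    · refine iSup_le fun i => ?_
      rcases Int.even_or_odd' i with ⟨j, rfl | rfl⟩
      · refine le_trans ?_ (le_iSup _ j)
        rw [mul_sub]
      · refine le_trans ?_ (le_iSup _ j)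
        refine Submodule.map₂_le_map₂ ?_ ?_
        · rw [hM j]
        · exact hmono' _ _ (by omega)
    · refine iSup_le fun j => ?_
      refine le_trans ?_ (le_iSup _ (2 * j))
      rw [mul_sub]
  refine ⟨fun k => ?_, heven⟩
  change T.W (prd 𝓜.B 𝓝.B) (2 * k + 1) = T.W (prd 𝓜.B 𝓝.B) (2 * k)
  apply le_antisymm
  · rw [hc (2 * k + 1), heven k]
    refine iSup_le fun i => ?_
    rcases Int.even_or_odd' i with ⟨j, rfl | rfl⟩
    · refine le_trans ?_ (le_iSup _ j)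
      refine Submodule.map₂_le_map₂ le_rfl ?_
      rw [show 2 * k + 1 - 2 * j = 2 * (k - j) + 1 by ring, hN (k - j)]
    · refine le_trans ?_ (le_iSup _ j)
      refine Submodule.map₂_le_map₂ ?_ ?_
      · rw [hM j]
      · exact hmono' _ _ (by omega)
  · exact hT.units.weights_mono _ (ft_prd h𝓜.ftB h𝓝.ftB) _ _ (by omega)

/-- **Products.** -/
theorem prd_pw (hT : IsTopology T) {𝓜 𝓝 : Quad T} (h𝓜 : 𝓜.Good) (h𝓝 : 𝓝.Good) (hM : 𝓜.PW)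
    (hN : 𝓝.PW) : (𝓜.prod 𝓝).PW := by
  obtain ⟨hodd, heven⟩ := prd_even hT h𝓜 h𝓝 (fun k => (hM k).1) (fun k => (hN k).1)
  refine fun k => ⟨hodd k, ?_⟩
  change (T.W (prd 𝓜.B 𝓝.B) (2 * k)).map (T.tr (T.times 𝓜.Psi 𝓝.Psi)).toLinearMap =
    T.P (prd.map 𝓜.hit 𝓝.hit) k
  have hPk : T.P (prd.map 𝓜.hit 𝓝.hit) k = ⨆ i : ℤ, Submodule.map₂ (T.cross 𝓜.D 𝓝.D)
      (T.P 𝓜.hit i) (T.P 𝓝.hit (k - i)) :=
    hT.kuenneth.cross_perverse 𝓜.hit 𝓝.hit h𝓜.ftD h𝓝.ftD h𝓜.ftV h𝓝.ftV h𝓜.proper h𝓝.proper k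
  rw [heven k, hPk, Submodule.map_iSup]
  refine iSup_congr fun j => ?_
  have h1 : T.P 𝓜.hit j = (T.W 𝓜.B (2 * j)).map (T.tr 𝓜.Psi).toLinearMap := ((hM j).2).symm
  have h2 : T.P 𝓝.hit (k - j) = (T.W 𝓝.B (2 * (k - j))).map (T.tr 𝓝.Psi).toLinearMap :=
    ((hN (k - j)).2).symm
  rw [h1, h2]
  apply le_antisymm
  · rintro _ ⟨z, hz, rfl⟩
    rw [← Submodule.mem_comap]
    refine (Submodule.map₂_le.mpr ?_) hz
    intro x hx y hy
    rw [Submodule.mem_comap]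
    change T.tr (T.times 𝓜.Psi 𝓝.Psi) (T.ext x y) ∈ _
    rw [hT.kuenneth.cross_nat h𝓜.ftB h𝓝.ftB h𝓜.ftD h𝓝.ftD]
    exact Submodule.apply_mem_map₂ _ ⟨x, hx, rfl⟩ ⟨y, hy, rfl⟩
  · refine Submodule.map₂_le.mpr ?_
    rintro _ ⟨x, hx, rfl⟩ _ ⟨y, hy, rfl⟩
    refine ⟨T.cross 𝓜.B 𝓝.B x y, Submodule.apply_mem_map₂ _ hx hy, ?_⟩
    exact hT.kuenneth.cross_nat h𝓜.ftB h𝓝.ftB h𝓜.ftD h𝓝.ftD 𝓜.Psi 𝓝.Psi x y

end Pool.Agent.V5helper89.PW
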