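import Pool.Agent.V5helper89.PW.Split

/-!
# P=W: fundamental groups, the groups `GL_n`
-/

set_option autoImplicit false
set_option linter.dupNamespace false

open CategoryTheory CategoryTheory.Limits AlgebraicGeometry

namespace Pool.Agent.V5helper89.PW

variable {T : Topology}

/-- **Invariance of P=W** in every degree. -/
theorem main_inv (hT : IsTopology T) {𝓖 : Moduli T} (h𝓖 : IsModuli 𝓖) (k : ℤ) : 𝓖.Invariant k :=
  fun Y X f hY hX hf => inv hT (h𝓖.good X hX) (h𝓖.good Y hY) (𝓖.pb f) (h𝓖.betti f hY hX hf) k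

/-- **Reduction to a class of varieties**, for example to surfaces. -/
theorem main_class (hT : IsTopology T) {𝓖 : Moduli T} (h𝓖 : IsModuli 𝓖) (S : Sch → Prop)
    (hS : Dense S) (k : ℤ) : 𝓖.ReducesTo k S := by
  constructor
  · refine ⟨fun h X hX _ => h X hX, fun h X hX => ?_⟩
    obtain ⟨Y, f, hY, hs, hf⟩ := hS X hX
    exact (main_inv hT h𝓖 k Y X f hY hX hf).1.mpr (h Y hY hs)
  · refine ⟨fun h X hX _ => h X hX, fun h X hX => ?_⟩
    obtain ⟨Y, f, hY, hs, hf⟩ := hS X hX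
    exact (main_inv hT h𝓖 k Y X f hY hX hf).2.mpr (h Y hY hs)

section linear

variable {𝓛 : Linear T} {R : Quad T → Prop} (hR : Calculus R) (h𝓛 : IsLinear 𝓛)
  (h0 : ∀ X, IsSmProj X → R ((𝓛.gl 0).M X))

include hR h𝓛 h0

/-- **Products of varieties.** -/
theorem upTo_prd {X Y : Sch} (hX : IsSmProj X) (hY : IsSmProj Y) (hp : IsSmProj (prd X Y)) (n : ℕ)
    (h1 : 𝓛.UpTo R n X) (h2 : 𝓛.UpTo R n Y) : 𝓛.UpTo R n (prd X Y) := by
  intro m
  induction m using Nat.strong_induction_on with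
  | _ m ih =>
    intro hm
    rcases Nat.eq_zero_or_pos m with rfl | hpos
    · exact h0 _ hp
    let ι : Type := {p : Fin (m + 1) × Fin (m + 1) //
      0 < (p.1 : ℕ) ∧ 0 < (p.2 : ℕ) ∧ (p.1 : ℕ) * (p.2 : ℕ) ≤ m}
    let c : ι → ℕ := fun p => m - (p.1.1 : ℕ) * (p.1.2 : ℕ)
    have hc : ∀ p : ι, (p.1.1 : ℕ) * (p.1.2 : ℕ) + c p = m := fun p =>
      Nat.add_sub_cancel' p.2.2.2
    have hle : ∀ p : ι, (p.1.1 : ℕ) ≤ m ∧ (p.1.2 : ℕ) ≤ m := fun p =>
      ⟨by have := p.1.1.2; omega, by have := p.1.2.2; omega⟩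
    let 𝓝 : ι → Quad T := fun p =>
      (((𝓛.gl p.1.1).M X).prod ((𝓛.gl p.1.2).M Y)).prod ((𝓛.gl (c p)).M (prd X Y))
    let u : ∀ p : ι, QHom (𝓝 p) ((𝓛.gl m).M (prd X Y)) := fun p => 𝓛.box X Y (hc p)
    have hgood : ∀ p : ι, (𝓝 p).Good := fun p =>
      prd_good (prd_good ((h𝓛.moduli _).good X hX) ((h𝓛.moduli _).good Y hY))
        ((h𝓛.moduli _).good _ hp)
    have hpw : ∀ p : ι, R (𝓝 p) := fun p => by
      have hcm : c p < m := by
        have h3 := Nat.mul_pos p.2.1 p.2.2.1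
        have h4 := hc p
        omega
      exact (hR.prod (prd_good ((h𝓛.moduli _).good X hX) ((h𝓛.moduli _).good Y hY))
        ((h𝓛.moduli _).good _ hp)).mpr
        ⟨(hR.prod ((h𝓛.moduli _).good X hX) ((h𝓛.moduli _).good Y hY)).mpr
          ⟨h1 _ ((hle p).1.trans hm), h2 _ ((hle p).2.trans hm)⟩,
        ih _ hcm (hcm.le.trans hm)⟩
    obtain ⟨hb, hd⟩ := h𝓛.box_covers X Y hX hY hp m hpos
    have hidx : ∀ (a b c' : ℕ) (h : a * b + c' = m) (_ : 0 < a) (_ : 0 < b),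
        ∃ p : ι, (p.1.1 : ℕ) = a ∧ (p.1.2 : ℕ) = b := by
      intro a b c' h ha hb
      have h3 : a ≤ a * b := Nat.le_mul_of_pos_right a hb
      have h4 : b ≤ a * b := Nat.le_mul_of_pos_left b ha
      exact ⟨⟨(⟨a, by omega⟩, ⟨b, by omega⟩), ha, hb, (by omega : a * b ≤ m)⟩, rfl, rfl⟩
    refine hR.descent ((h𝓛.moduli _).good _ hp) hgood u
      (fun p => h𝓛.box_fin X Y hX hY hp (hc p) p.2.1 p.2.2.1) ⟨?_, ?_⟩ hpw
    · intro x
      obtain ⟨a, b, c', h, ha, hb', hx⟩ := hb x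
      obtain ⟨p, rfl, rfl⟩ := hidx a b c' h ha hb'
      have h5 : c' = c p := by
        have := hc p
        omega
      subst h5
      exact ⟨p, hx⟩
    · intro x
      obtain ⟨a, b, c', h, ha, hb', hx⟩ := hd x
      obtain ⟨p, rfl, rfl⟩ := hidx a b c' h ha hb'
      have h5 : c' = c p := by
        have := hc p
        omega
      subst h5
      exact ⟨p, hx⟩

/-- **Representations which are sums of induced representations.** -/
theorem upTo_induced {X : Sch} (hX : IsSmProj X) (n : ℕ) {κ : Type} [Finite κ] {Y : κ → Sch}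
    (p : ∀ j, Y j ⟶ X) (d a : κ → ℕ) (hp : ∀ j, IsCovering (p j) (d j)) (hd : ∀ j, 0 < d j)
    (ha : ∀ j, 0 < a j) (hs : 𝓛.Induced n X p d a) (hA : ∀ j, R ((𝓛.gl (a j)).M (Y j))) :
    𝓛.UpTo R n X := by
  intro m
  induction m using Nat.strong_induction_on with
  | _ m ih =>
    intro hm
    rcases Nat.eq_zero_or_pos m with rfl | hpos
    · exact h0 _ hX
    let ι : Type := {j : κ // d j * a j ≤ m}
    have hc : ∀ j : ι, d j.1 * a j.1 + (m - d j.1 * a j.1) = m := fun j =>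
      Nat.add_sub_cancel' j.2
    let 𝓝 : ι → Quad T := fun j =>
      ((𝓛.gl (a j.1)).M (Y j.1)).prod ((𝓛.gl (m - d j.1 * a j.1)).M X)
    let u : ∀ j : ι, QHom (𝓝 j) ((𝓛.gl m).M X) := fun j => 𝓛.ind (p j.1) (hc j)
    have hpw : ∀ j : ι, R (𝓝 j) := fun j => by
      have h3 := Nat.mul_pos (hd j.1) (ha j.1)
      exact (hR.prod ((h𝓛.moduli _).good _ (hp j.1).smProj) ((h𝓛.moduli _).good X hX)).mpr
        ⟨hA j.1, ih _ (by omega) (by omega)⟩
    obtain ⟨hb, hd'⟩ := hs m hm hpos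
    have hfin : ∀ j : ι, (u j).Fin := fun j =>
      h𝓛.ind_fin (d := d j.1) (a := a j.1) (c := m - d j.1 * a j.1) (n := m) (p j.1) (hc j) hX
        (hp j.1)
    have hgood : ∀ j : ι, (𝓝 j).Good := fun j =>
      prd_good ((h𝓛.moduli _).good _ (hp j.1).smProj) ((h𝓛.moduli _).good X hX)
    refine hR.descent ((h𝓛.moduli _).good _ hX) hgood u hfin ⟨?_, ?_⟩ hpw
    · intro x
      obtain ⟨j, c, h, hx⟩ := hb x
      have h5 : c = m - d j * a j := by omega
      have hj : d j * a j ≤ m := by omega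
      subst h5
      exact ⟨(⟨j, hj⟩ : ι), hx⟩
    · intro x
      obtain ⟨j, c, h, hx⟩ := hd' x
      have h5 : c = m - d j * a j := by omega
      have hj : d j * a j ≤ m := by omega
      subst h5
      exact ⟨(⟨j, hj⟩ : ι), hx⟩

omit hR h𝓛 h0 in
/-- The varieties generated by a class. -/
theorem gen_smProj {𝒜 : Sch → Prop} {X : Sch} (h : Gen 𝒜 X) : IsSmProj X := by
  induction h with
  | base hX _ => exact hX
  | product hp _ _ _ _ => exact hp
  | up _ hX _ _ _ => exact hX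
  | down _ hY _ _ _ => exact hY

/-- **The class of the varieties with P=W for `GL_m`, `m ≤ n`.** -/
theorem upTo_gen (n : ℕ) {X : Sch} (h : Gen (fun Y => 𝓛.UpTo R n Y) X) : 𝓛.UpTo R n X := by
  induction h with
  | base _ h => exact h
  | product hp hX hY h1 h2 =>
    exact upTo_prd hR h𝓛 h0 (gen_smProj hX) (gen_smProj hY) hp n h1 h2
  | up f hX hf hY ih =>
    intro m hm
    have hY' := gen_smProj hY
    exact (hR.inv ((h𝓛.moduli m).good _ hX) ((h𝓛.moduli m).good _ hY') _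
      ((h𝓛.moduli m).betti f hY' hX hf)).mpr (ih m hm)
  | down f hY hf hX ih =>
    intro m hm
    have hX' := gen_smProj hX
    exact (hR.inv ((h𝓛.moduli m).good _ hX') ((h𝓛.moduli m).good _ hY) _
      ((h𝓛.moduli m).betti f hY hX' hf)).mp (ih m hm)

end linear

end Pool.Agent.V5helper89.PW
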