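import Pool.Agent.V5helper89.PW.Inv

/-!
# P=W: the factors of a product
-/

set_option autoImplicit false
set_option linter.dupNamespace false

open CategoryTheory CategoryTheory.Limits AlgebraicGeometry
open scoped TensorProduct

namespace Pool.Agent.V5helper89.PW

section linear

variable {A B E : Type} [AddCommGroup A] [Module ℚ A] [AddCommGroup B] [Module ℚ B]
  [AddCommGroup E] [Module ℚ E]

/-- A filtration is determined by its tensor product with a filtration which starts at zero. -/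
lemma mem_of_tensor (c : A →ₗ[ℚ] B →ₗ[ℚ] E) (hc : Function.Injective (TensorProduct.lift c))
    (F : ℤ → Submodule ℚ A) (G : ℤ → Submodule ℚ B) (hF : ∀ i j, i ≤ j → F i ≤ F j)
    (hG : ∀ i, i < 0 → G i = ⊥) (e : B) (he : e ≠ 0) (x : A) (k : ℤ)
    (h : c x e ∈ ⨆ i : ℤ, Submodule.map₂ c (F i) (G (k - i))) : x ∈ F k := by
  obtain ⟨f, hf⟩ : ∃ f : Module.Dual ℚ B, f e ≠ 0 := by
    by_contra hcon
    push Not at hcon
    exact he ((Module.forall_dual_apply_eq_zero_iff ℚ e).mp hcon)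
  let L : A ⊗[ℚ] B →ₗ[ℚ] A := TensorProduct.lift ((LinearMap.lsmul ℚ A).flip.compl₂ f)
  have hL : ∀ a b, L (a ⊗ₜ b) = f b • a := fun a b => by
    simp [L]
  have hle : (⨆ i : ℤ, Submodule.map₂ c (F i) (G (k - i))) ≤
      ((F k).comap L).map (TensorProduct.lift c) := by
    refine iSup_le fun i => Submodule.map₂_le.mpr ?_
    intro a ha b hb
    refine ⟨a ⊗ₜ b, ?_, TensorProduct.lift.tmul a b⟩
    change L (a ⊗ₜ b) ∈ F k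
    rw [hL]
    rcases le_or_gt i k with hik | hik
    · exact (F k).smul_mem _ (hF i k hik ha)
    · rw [hG (k - i) (by omega), Submodule.mem_bot] at hb
      rw [hb, map_zero, zero_smul]
      exact (F k).zero_mem
  obtain ⟨t, ht, hte⟩ := hle h
  have h1 : t = x ⊗ₜ e := hc (by rw [hte, TensorProduct.lift.tmul])
  have h2 : L t ∈ F k := ht
  rw [h1, hL] at h2
  exact ((F k).smul_mem_iff hf).mp h2

lemma mem_tensor_iff (c : A →ₗ[ℚ] B →ₗ[ℚ] E) (hc : Function.Injective (TensorProduct.lift c))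
    (F : ℤ → Submodule ℚ A) (G : ℤ → Submodule ℚ B) (hF : ∀ i j, i ≤ j → F i ≤ F j)
    (hG : ∀ i, i < 0 → G i = ⊥) (e : B) (he : e ≠ 0) (he0 : e ∈ G 0) (x : A) (k : ℤ) :
    c x e ∈ (⨆ i : ℤ, Submodule.map₂ c (F i) (G (k - i))) ↔ x ∈ F k := by
  refine ⟨mem_of_tensor c hc F G hF hG e he x k, fun hx => ?_⟩
  refine (le_iSup (fun i : ℤ => Submodule.map₂ c (F i) (G (k - i))) k) ?_
  refine Submodule.apply_mem_map₂ _ hx ?_
  rwa [sub_self]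

lemma mem_tensor_iff' (c : A →ₗ[ℚ] B →ₗ[ℚ] E) (hc : Function.Injective (TensorProduct.lift c))
    (F : ℤ → Submodule ℚ A) (G : ℤ → Submodule ℚ B) (hG : ∀ i j, i ≤ j → G i ≤ G j)
    (hF : ∀ i, i < 0 → F i = ⊥) (e : A) (he : e ≠ 0) (he0 : e ∈ F 0) (x : B) (k : ℤ) :
    c e x ∈ (⨆ i : ℤ, Submodule.map₂ c (F i) (G (k - i))) ↔ x ∈ G k := by
  have hc' : Function.Injective (TensorProduct.lift c.flip) := by
    have h1 : TensorProduct.lift c.flip =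
        (TensorProduct.lift c).comp (TensorProduct.comm ℚ B A).toLinearMap := by
      ext b a
      simp
    rw [h1]
    exact hc.comp (TensorProduct.comm ℚ B A).injective
  have h2 := mem_tensor_iff c.flip hc' G F hG hF e he he0 x k
  have h3 : (⨆ i : ℤ, Submodule.map₂ c (F i) (G (k - i))) =
      ⨆ i : ℤ, Submodule.map₂ c.flip (G i) (F (k - i)) := by
    apply le_antisymm
    · refine iSup_le fun i => ?_
      refine le_trans ?_ (le_iSup _ (k - i))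
      rw [Submodule.map₂_flip, sub_sub_cancel]
    · refine iSup_le fun i => ?_
      refine le_trans ?_ (le_iSup _ (k - i))
      rw [Submodule.map₂_flip, sub_sub_cancel]
  rw [h3]
  exact h2

end linear

variable {T : Topology}

section

variable (hT : IsTopology T) {𝓜 𝓝 : Quad T} (h𝓜 : 𝓜.Good) (h𝓝 : 𝓝.Good)

include hT h𝓜 h𝓝

lemma cross_left (k : ℤ) (x : T.H 𝓜.B) :
    T.ext x (T.one 𝓝.B) ∈ T.W (prd 𝓜.B 𝓝.B) k ↔ x ∈ T.W 𝓜.B k := by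
  rw [hT.kuenneth.cross_weights 𝓜.B 𝓝.B h𝓜.ftB h𝓝.ftB]
  exact mem_tensor_iff _ (hT.kuenneth.cross_inj _ _ h𝓜.ftB h𝓝.ftB) _ _ (hT.units.weights_mono _ h𝓜.ftB)
    (hT.units.weights_neg _ h𝓝.ftB) _ (hT.units.one_ne _ h𝓝.ftB h𝓝.nonB) (hT.units.one_weights _ h𝓝.ftB) x k

lemma cross_right (k : ℤ) (x : T.H 𝓝.B) :
    T.ext (T.one 𝓜.B) x ∈ T.W (prd 𝓜.B 𝓝.B) k ↔ x ∈ T.W 𝓝.B k := by
  rw [hT.kuenneth.cross_weights 𝓜.B 𝓝.B h𝓜.ftB h𝓝.ftB]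
  exact mem_tensor_iff' _ (hT.kuenneth.cross_inj _ _ h𝓜.ftB h𝓝.ftB) _ _ (hT.units.weights_mono _ h𝓝.ftB)
    (hT.units.weights_neg _ h𝓜.ftB) _ (hT.units.one_ne _ h𝓜.ftB h𝓜.nonB) (hT.units.one_weights _ h𝓜.ftB) x k

/-- **Products**: Q1 holds for a product if and only if it holds for the factors. -/
theorem prd_even_iff : (𝓜.prod 𝓝).Even ↔ 𝓜.Even ∧ 𝓝.Even := by
  refine ⟨fun h => ?_, fun h => (prd_even hT h𝓜 h𝓝 h.1 h.2).1⟩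
  have h1 : ∀ k, T.W (prd 𝓜.B 𝓝.B) (2 * k + 1) = T.W (prd 𝓜.B 𝓝.B) (2 * k) := h
  constructor
  · intro k
    unfold Quad.Q1
    ext x
    rw [← cross_left hT h𝓜 h𝓝, ← cross_left hT h𝓜 h𝓝, h1]
  · intro k
    unfold Quad.Q1
    ext x
    rw [← cross_right hT h𝓜 h𝓝, ← cross_right hT h𝓜 h𝓝, h1]

/-- **Products**: P=W holds for a product if and only if it holds for the factors. -/
theorem prd_pw_iff : (𝓜.prod 𝓝).PW ↔ 𝓜.PW ∧ 𝓝.PW := by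
  refine ⟨fun h => ?_, fun h => prd_pw hT h𝓜 h𝓝 h.1 h.2⟩
  have hPk := hT.kuenneth.cross_perverse 𝓜.hit 𝓝.hit h𝓜.ftD h𝓝.ftD h𝓜.ftV h𝓝.ftV h𝓜.proper h𝓝.proper
  have hneg : ∀ k : ℤ, k < 0 → T.P (prd.map 𝓜.hit 𝓝.hit) k = ⊥ := by
    intro k hk
    have h3 : T.push (T.times 𝓜.Psi 𝓝.Psi) (T.W (prd 𝓜.B 𝓝.B) (2 * k)) =
      T.P (prd.map 𝓜.hit 𝓝.hit) k := (h k).2
    rw [← h3, hT.units.weights_neg _ (ft_prd h𝓜.ftB h𝓝.ftB) _ (by omega)]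
    exact Submodule.map_bot _
  have hinj := hT.kuenneth.cross_inj _ _ h𝓜.ftD h𝓝.ftD
  have negM : ∀ i : ℤ, i < 0 → T.P 𝓜.hit i = ⊥ := by
    intro i hi
    rw [eq_bot_iff]
    intro x hx
    have h4 : T.ext x (T.one 𝓝.D) ∈ T.P (prd.map 𝓜.hit 𝓝.hit) i := by
      rw [hPk]
      refine (le_iSup (fun j : ℤ => Submodule.map₂ (T.cross 𝓜.D 𝓝.D) (T.P 𝓜.hit j)
        (T.P 𝓝.hit (i - j))) i) (Submodule.apply_mem_map₂ _ hx ?_)
      rw [sub_self]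
      exact hT.units.one_perverse _ h𝓝.ftD h𝓝.ftV h𝓝.proper
    rw [hneg i hi, Submodule.mem_bot] at h4
    exact mem_of_tensor _ hinj (fun _ => ⊥) (fun _ => ⊥) (fun _ _ _ => le_rfl) (fun _ _ => rfl) _
      (hT.units.one_ne _ h𝓝.ftD h𝓝.nonD) x 0 (by
        have h5 : T.cross 𝓜.D 𝓝.D x (T.one 𝓝.D) = 0 := h4
        rw [h5]
        exact Submodule.zero_mem _)
  have negN : ∀ i : ℤ, i < 0 → T.P 𝓝.hit i = ⊥ := by
    intro i hi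
    rw [eq_bot_iff]
    intro x hx
    have h4 : T.ext (T.one 𝓜.D) x ∈ T.P (prd.map 𝓜.hit 𝓝.hit) i := by
      rw [hPk]
      refine (le_iSup (fun j : ℤ => Submodule.map₂ (T.cross 𝓜.D 𝓝.D) (T.P 𝓜.hit j)
        (T.P 𝓝.hit (i - j))) 0) (Submodule.apply_mem_map₂ _
          (hT.units.one_perverse _ h𝓜.ftD h𝓜.ftV h𝓜.proper) ?_)
      rwa [sub_zero]
    rw [hneg i hi, Submodule.mem_bot] at h4
    exact (mem_tensor_iff' _ hinj (fun i => if i < 0 then ⊥ else ⊤) (fun _ => ⊥)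
      (fun _ _ _ => le_rfl) (fun i hi => if_pos hi) _ (hT.units.one_ne _ h𝓜.ftD h𝓜.nonD)
      (by rw [if_neg (lt_irrefl _)]; exact Submodule.mem_top) x 0).mp
        (by
          have h5 : T.cross 𝓜.D 𝓝.D (T.one 𝓜.D) x = 0 := h4
          rw [h5]
          exact Submodule.zero_mem _)
  have hPl : ∀ k x, T.ext x (T.one 𝓝.D) ∈ T.P (prd.map 𝓜.hit 𝓝.hit) k ↔
      x ∈ T.P 𝓜.hit k := by
    intro k x
    rw [hPk]
    exact mem_tensor_iff _ (hT.kuenneth.cross_inj _ _ h𝓜.ftD h𝓝.ftD) _ _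
      (hT.units.perverse_mono _ h𝓜.ftD h𝓜.ftV h𝓜.proper) negN _
      (hT.units.one_ne _ h𝓝.ftD h𝓝.nonD) (hT.units.one_perverse _ h𝓝.ftD h𝓝.ftV h𝓝.proper) x k
  have hPr : ∀ k x, T.ext (T.one 𝓜.D) x ∈ T.P (prd.map 𝓜.hit 𝓝.hit) k ↔
      x ∈ T.P 𝓝.hit k := by
    intro k x
    rw [hPk]
    exact mem_tensor_iff' _ (hT.kuenneth.cross_inj _ _ h𝓜.ftD h𝓝.ftD) _ _
      (hT.units.perverse_mono _ h𝓝.ftD h𝓝.ftV h𝓝.proper) negM _
      (hT.units.one_ne _ h𝓜.ftD h𝓜.nonD) (hT.units.one_perverse _ h𝓜.ftD h𝓜.ftV h𝓜.proper) x k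
  have hnat := hT.kuenneth.cross_nat h𝓜.ftB h𝓝.ftB h𝓜.ftD h𝓝.ftD 𝓜.Psi 𝓝.Psi
  have h2 : ∀ k x, x ∈ T.W (prd 𝓜.B 𝓝.B) (2 * k) ↔
      T.tr (T.times 𝓜.Psi 𝓝.Psi) x ∈ T.P (prd.map 𝓜.hit 𝓝.hit) k := fun k =>
    q2_iff.mp (h k).2
  obtain ⟨he1, he2⟩ := (prd_even_iff hT h𝓜 h𝓝).mp fun k => (h k).1
  constructor
  · refine fun k => ⟨he1 k, q2_iff.mpr fun x => ?_⟩
    rw [← cross_left hT h𝓜 h𝓝, h2, hnat, hT.units.one_nat 𝓝.Psi h𝓝.ftB h𝓝.ftD, hPl]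
  · refine fun k => ⟨he2 k, q2_iff.mpr fun x => ?_⟩
    rw [← cross_right hT h𝓜 h𝓝, h2, hnat, hT.units.one_nat 𝓜.Psi h𝓜.ftB h𝓜.ftD, hPr]

end

/-- **The permanence properties** of Q1 and of P=W. -/
theorem calculus (hT : IsTopology T) :
    Calculus (Quad.Even (T := T)) ∧ Calculus (Quad.PW (T := T)) := by
  refine ⟨⟨?_, ?_, ?_⟩, ⟨?_, ?_, ?_⟩⟩
  · intro 𝓝 𝓜 h𝓝 h𝓜 u hu
    exact forall_congr' fun k => (inv hT h𝓝 h𝓜 u hu k).1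
  · intro ι _ 𝓜 𝓝 h𝓜 h𝓝 u hu hc h k
    exact (descent hT h𝓜 h𝓝 u hu hc k).1 fun i => h i k
  · intro 𝓜 𝓝 h𝓜 h𝓝
    exact prd_even_iff hT h𝓜 h𝓝
  · intro 𝓝 𝓜 h𝓝 h𝓜 u hu
    exact forall_congr' fun k => and_congr (inv hT h𝓝 h𝓜 u hu k).1 (inv hT h𝓝 h𝓜 u hu k).2
  · intro ι _ 𝓜 𝓝 h𝓜 h𝓝 u hu hc h k
    exact ⟨(descent hT h𝓜 h𝓝 u hu hc k).1 fun i => (h i k).1,
      (descent hT h𝓜 h𝓝 u hu hc k).2 fun i => (h i k).2⟩
  · intro 𝓜 𝓝 h𝓜 h𝓝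
    exact prd_pw_iff hT h𝓜 h𝓝

end Pool.Agent.V5helper89.PW
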